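import Mathlib

/-!
RL (H11_RL.md, section 3, proof of the claim): the levels `T_e`.

`Nb l` = the positions of row `l`, `N S = S.biUnion Nb`, `k_e = D ^ e`; integer version, `ζ_(e+1) = D ^ e / μ`.
-/

set_option autoImplicit false

open Finset

namespace Pool.Agent.H69.RL.LevelsNat

variable {ι κ : Type*} [DecidableEq ι] [DecidableEq κ]

/-- One level: a subset minimising `|T - T'| + ζ |N(T')|`. -/
theorem level_step (Nb : ι → Finset κ) (T : Finset ι) (ζ : ℝ) :
    ∃ T' ⊆ T, ∀ U ⊆ T, ((T \ T').card : ℝ) + ζ * (T'.biUnion Nb).card ≤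
      ((T \ U).card : ℝ) + ζ * (U.biUnion Nb).card := by
  have h : (T.powerset).Nonempty := ⟨∅, by simp⟩
  obtain ⟨T', hT', hmin⟩ := exists_min_image T.powerset
    (fun U => ((T \ U).card : ℝ) + ζ * (U.biUnion Nb).card) h
  exact ⟨T', mem_powerset.1 hT', fun U hU => hmin U (mem_powerset.2 hU)⟩

/-- The sequence of levels. -/
theorem level_seq (Nb : ι → Finset κ) (T1 : Finset ι) (ζ : ℕ → ℝ) :
    ∃ Tt : ℕ → Finset ι, Tt 0 = T1 ∧ (∀ e, Tt (e + 1) ⊆ Tt e) ∧
      ∀ e, ∀ U ⊆ Tt e, ((Tt e \ Tt (e + 1)).card : ℝ) + ζ e * ((Tt (e + 1)).biUnion Nb).card ≤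
        ((Tt e \ U).card : ℝ) + ζ e * (U.biUnion Nb).card := by
  choose F hFsub hFmin using fun (T : Finset ι) (z : ℝ) => level_step Nb T z
  exact ⟨fun e => Nat.rec T1 (fun e T => F T (ζ e)) e, rfl, fun e => hFsub _ _,
    fun e U hU => hFmin _ _ U hU⟩

theorem aux_mul (μ y x : ℝ) (h : μ ≠ 0) : μ * (y / μ * x) = y * x := by
  field_simp

/-- The levels and the paying ones. -/
theorem levels (T1 : Finset ι) (Nb : ι → Finset κ) (hNb : ∀ l ∈ T1, (Nb l).Nonempty)
    (μ D : ℕ) (hμ : 1 ≤ μ) (hD : 320 * μ + 1 ≤ D) :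
    ∃ (Tt : ℕ → Finset ι), Tt 0 = T1 ∧ (∀ e, Tt (e + 1) ⊆ Tt e) ∧
      (∀ e, ∀ S ⊆ Tt e \ Tt (e + 1), μ * S.card ≤
        D ^ e * (S.biUnion Nb \ (Tt (e + 1)).biUnion Nb).card) ∧
      (∀ e, D ^ e * ((Tt (e + 1)).biUnion Nb).card ≤ μ * (Tt (e + 1)).card) ∧
      ∃ E : Finset ℕ, (∀ e ∈ E, ∀ e' ∈ E, e < e' → e + 2 ≤ e') ∧
        (∀ e ∈ E, (Tt e \ Tt (e + 1)).Nonempty) ∧
        (∀ e ∈ E, 40 * D ^ e * ((Tt (e + 2)).biUnion Nb).card ≤ (Tt e \ Tt (e + 1)).card) ∧
        3 * T1.card ≤ 8 * ∑ e ∈ E, (Tt e \ Tt (e + 1)).card := by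
  have hμ0 : (1 : ℝ) ≤ μ := by exact_mod_cast hμ
  have hDr : 320 * (μ : ℝ) + 1 ≤ D := by exact_mod_cast hD
  have hD0 : (0 : ℝ) < D := by linarith
  have hD1 : (1 : ℝ) < D := by linarith
  have hμp : (0 : ℝ) < μ := by linarith
  -- the levels
  obtain ⟨Tt, hT0, hsub, hmin⟩ := level_seq Nb T1 (fun e => (D : ℝ) ^ e / μ)
  have hanti : ∀ e e', e ≤ e' → Tt e' ⊆ Tt e := by
    intro e e' h
    induction h with
    | refl => exact subset_rfl
    | step _ ih => exact (hsub _).trans ih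
  have hcard : ∀ e, ((Tt e).card : ℝ) =
      ((Tt e \ Tt (e + 1)).card : ℝ) + ((Tt (e + 1)).card : ℝ) := by
    intro e
    have := card_sdiff_add_card_eq_card (hsub e)
    exact_mod_cast this.symm
  -- (a)
  have ha : ∀ e, ∀ S ⊆ Tt e \ Tt (e + 1), (μ : ℝ) * S.card ≤
      D ^ e * ((S.biUnion Nb \ (Tt (e + 1)).biUnion Nb).card : ℝ) := by
    intro e S hS
    have hSe : S ⊆ Tt e := hS.trans sdiff_subset
    have h1 := hmin e (Tt (e + 1) ∪ S) (union_subset (hsub e) hSe)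
    have h2 : ((Tt e \ (Tt (e + 1) ∪ S)).card : ℝ) + S.card =
        ((Tt e \ Tt (e + 1)).card : ℝ) := by
      have e1 : Tt e \ (Tt (e + 1) ∪ S) = (Tt e \ Tt (e + 1)) \ S := by
        ext x
        simp only [mem_sdiff, mem_union]
        tauto
      rw [e1]
      exact_mod_cast card_sdiff_add_card_eq_card hS
    have h3 : (((Tt (e + 1) ∪ S).biUnion Nb).card : ℝ) =
        (((Tt (e + 1)).biUnion Nb).card : ℝ) +
          ((S.biUnion Nb \ (Tt (e + 1)).biUnion Nb).card : ℝ) := by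
      have e1 : (Tt (e + 1) ∪ S).biUnion Nb =
          (Tt (e + 1)).biUnion Nb ∪ (S.biUnion Nb \ (Tt (e + 1)).biUnion Nb) := by
        rw [union_biUnion, union_sdiff_self_eq_union]
      rw [e1, card_union_of_disjoint disjoint_sdiff]
      push_cast
      ring
    rw [h3] at h1
    have h4 : (S.card : ℝ) ≤ (D : ℝ) ^ e / μ *
        ((S.biUnion Nb \ (Tt (e + 1)).biUnion Nb).card : ℝ) := by
      have e2 : (D : ℝ) ^ e / μ * ((((Tt (e + 1)).biUnion Nb).card : ℝ) +
          ((S.biUnion Nb \ (Tt (e + 1)).biUnion Nb).card : ℝ)) =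
          (D : ℝ) ^ e / μ * (((Tt (e + 1)).biUnion Nb).card : ℝ) + (D : ℝ) ^ e / μ *
          ((S.biUnion Nb \ (Tt (e + 1)).biUnion Nb).card : ℝ) := by ring
      rw [e2] at h1
      linarith
    have h5 := mul_le_mul_of_nonneg_left h4 hμp.le
    rwa [aux_mul _ _ _ hμp.ne'] at h5
  -- (b)
  have hb : ∀ e, (D : ℝ) ^ e * (((Tt (e + 1)).biUnion Nb).card : ℝ) ≤ μ * (Tt (e + 1)).card := by
    intro e
    have h1 := hmin e ∅ (empty_subset _)
    simp only [sdiff_empty, biUnion_empty, card_empty, Nat.cast_zero, mul_zero, add_zero] at h1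
    have h2 := hcard e
    have h3 : (D : ℝ) ^ e / μ * (((Tt (e + 1)).biUnion Nb).card : ℝ) ≤ (Tt (e + 1)).card := by
      linarith
    have h5 := mul_le_mul_of_nonneg_left h3 hμp.le
    rwa [aux_mul _ _ _ hμp.ne'] at h5
  -- (c)
  have hcc : ∀ e, (D : ℝ) ^ e * ((((Tt (e + 1)).biUnion Nb).card : ℝ) -
      (((Tt (e + 2)).biUnion Nb).card : ℝ)) ≤ μ * ((Tt (e + 1) \ Tt (e + 2)).card : ℝ) := by
    intro e
    have h1 := hmin e (Tt (e + 2)) (hanti e (e + 2) (by omega))
    have h2 : ((Tt e \ Tt (e + 2)).card : ℝ) = ((Tt e \ Tt (e + 1)).card : ℝ) +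
        ((Tt (e + 1) \ Tt (e + 2)).card : ℝ) := by
      have e1 := hcard e
      have e2 := hcard (e + 1)
      have e3 := card_sdiff_add_card_eq_card (hanti e (e + 2) (by omega))
      have e4 : ((Tt e \ Tt (e + 2)).card : ℝ) + ((Tt (e + 2)).card : ℝ) = (Tt e).card := by
        exact_mod_cast e3
      linarith
    rw [h2] at h1
    have h3 : (D : ℝ) ^ e / μ * ((((Tt (e + 1)).biUnion Nb).card : ℝ) -
        (((Tt (e + 2)).biUnion Nb).card : ℝ)) ≤ ((Tt (e + 1) \ Tt (e + 2)).card : ℝ) := by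
      have e2 : (D : ℝ) ^ e / μ * ((((Tt (e + 1)).biUnion Nb).card : ℝ) -
        (((Tt (e + 2)).biUnion Nb).card : ℝ)) = (D : ℝ) ^ e / μ *
          (((Tt (e + 1)).biUnion Nb).card : ℝ) - (D : ℝ) ^ e / μ *
          (((Tt (e + 2)).biUnion Nb).card : ℝ) := by ring
      rw [e2]
      linarith
    have h5 := mul_le_mul_of_nonneg_left h3 hμp.le
    rwa [aux_mul _ _ _ hμp.ne'] at h5
  -- empty for large `e`
  obtain ⟨m, hm⟩ := pow_unbounded_of_one_lt ((μ : ℝ) * T1.card) hD1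
  have hempty : ∀ e, m + 1 ≤ e → Tt e = ∅ := by
    intro e he
    have h0 : Tt (m + 1) = ∅ := by
      by_contra hne
      obtain ⟨l, hl⟩ := nonempty_iff_ne_empty.2 hne
      have hl1 : l ∈ T1 := by
        rw [← hT0]
        exact hanti 0 (m + 1) (Nat.zero_le _) hl
      obtain ⟨j, hj⟩ := hNb l hl1
      have h1 : 1 ≤ (((Tt (m + 1)).biUnion Nb).card : ℝ) := by
        have : 0 < ((Tt (m + 1)).biUnion Nb).card :=
          card_pos.2 ⟨j, mem_biUnion.2 ⟨l, hl, hj⟩⟩
        exact_mod_cast this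
      have h2 := hb m
      have h3 : ((Tt (m + 1)).card : ℝ) ≤ T1.card := by
        rw [← hT0]
        exact_mod_cast card_le_card (hanti 0 (m + 1) (Nat.zero_le _))
      have h4 : (D : ℝ) ^ m * 1 ≤ (D : ℝ) ^ m * (((Tt (m + 1)).biUnion Nb).card : ℝ) :=
        mul_le_mul_of_nonneg_left h1 (by positivity)
      have h5 := mul_le_mul_of_nonneg_left h3 hμp.le
      linarith
    have := hanti (m + 1) e he
    rw [h0] at this
    exact subset_empty.1 this
  set g : ℕ → ℝ := fun e => ((Tt e \ Tt (e + 1)).card : ℝ) with hg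
  set ν : ℕ → ℝ := fun e => (((Tt e).biUnion Nb).card : ℝ) with hν
  have hg0 : ∀ e, 0 ≤ g e := fun e => Nat.cast_nonneg _
  have hν0 : ∀ e, 0 ≤ ν e := fun e => Nat.cast_nonneg _
  have hsumg : ∀ M, ∑ e ∈ range M, g e = (T1.card : ℝ) - (Tt M).card := by
    intro M
    induction M with
    | zero => simp [hT0]
    | succ M ih =>
      rw [sum_range_succ, ih]
      have := hcard M
      simp only [hg]
      linarith
  set M := m + 1 with hM
  have hsumM : ∑ e ∈ range M, g e = T1.card := by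
    rw [hsumg M, hempty M le_rfl]
    simp
  set a : ℕ → ℝ := fun e => (D : ℝ) ^ e * ν (e + 2) with hadef
  have ha0 : ∀ e, 0 ≤ a e := fun e => mul_nonneg (by positivity) (hν0 _)
  have hstep : ∀ e, D * a e ≤ a (e + 1) + μ * g (e + 2) := by
    intro e
    have h2 : (D : ℝ) ^ (e + 1) * (ν (e + 2) - ν (e + 3)) ≤ μ * g (e + 2) := hcc (e + 1)
    have e1 : a e = (D : ℝ) ^ e * ν (e + 2) := rfl
    have e2 : a (e + 1) = (D : ℝ) ^ (e + 1) * ν (e + 3) := rfl
    rw [e1, e2]
    rw [pow_succ] at h2 ⊢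
    nlinarith
  have hνM : ∀ e, M ≤ e → ν e = 0 := by
    intro e he
    simp only [hν]
    rw [hempty e he]
    simp
  have hsuma : (D - 1) * ∑ e ∈ range M, a e ≤ μ * (T1.card : ℝ) := by
    have h1 : ∑ e ∈ range M, D * a e ≤ ∑ e ∈ range M, (a (e + 1) + μ * g (e + 2)) :=
      sum_le_sum fun e _ => hstep e
    rw [sum_add_distrib, ← mul_sum, ← mul_sum] at h1
    have h2 : ∑ e ∈ range M, a (e + 1) ≤ ∑ e ∈ range M, a e := by
      have e1 := sum_range_succ' a M
      have e2 := sum_range_succ a M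
      have e3 : a M = 0 := by
        have e4 : a M = (D : ℝ) ^ M * ν (M + 2) := rfl
        rw [e4, hνM (M + 2) (by omega), mul_zero]
      have := ha0 0
      linarith
    have h3 : ∑ e ∈ range M, g (e + 2) ≤ T1.card := by
      have e1 := hsumg (M + 2)
      rw [sum_range_succ', sum_range_succ'] at e1
      have e4 : (0 : ℝ) ≤ (Tt (M + 2)).card := Nat.cast_nonneg _
      have e5 := hg0 0
      have e6 := hg0 (0 + 1)
      linarith
    have h4 := mul_le_mul_of_nonneg_left h3 hμp.le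
    have e5 : (D - 1) * ∑ e ∈ range M, a e = D * ∑ e ∈ range M, a e - ∑ e ∈ range M, a e := by
      ring
    rw [e5]
    linarith
  -- the paying levels
  set Pay := (range M).filter (fun e => 40 * (D : ℝ) ^ e * ν (e + 2) ≤ g e) with hPay
  have hnon : ∑ e ∈ (range M).filter (fun e => ¬ 40 * (D : ℝ) ^ e * ν (e + 2) ≤ g e), g e ≤
      (T1.card : ℝ) / 8 := by
    calc ∑ e ∈ (range M).filter (fun e => ¬ 40 * (D : ℝ) ^ e * ν (e + 2) ≤ g e), g e
        ≤ ∑ e ∈ (range M).filter (fun e => ¬ 40 * (D : ℝ) ^ e * ν (e + 2) ≤ g e), 40 * a e := by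
          refine sum_le_sum fun e he => ?_
          have h1 := not_le.1 (mem_filter.1 he).2
          have e0 : a e = (D : ℝ) ^ e * ν (e + 2) := rfl
          rw [e0]
          linarith
      _ ≤ ∑ e ∈ range M, 40 * a e :=
          sum_le_sum_of_subset_of_nonneg (filter_subset _ _) fun e _ _ =>
            mul_nonneg (by norm_num) (ha0 e)
      _ = 40 * ∑ e ∈ range M, a e := (mul_sum _ _ _).symm
      _ ≤ (T1.card : ℝ) / 8 := by
          have h1 : 320 * (μ : ℝ) ≤ D - 1 := by linarith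
          have h2 : 0 ≤ ∑ e ∈ range M, a e := sum_nonneg fun e _ => ha0 e
          have h3 := mul_le_mul_of_nonneg_right h1 h2
          have h4 : (μ : ℝ) * (320 * ∑ e ∈ range M, a e) ≤ μ * (T1.card : ℝ) := by
            calc (μ : ℝ) * (320 * ∑ e ∈ range M, a e) = 320 * (μ : ℝ) * ∑ e ∈ range M, a e := by
                  ring
              _ ≤ _ := h3.trans hsuma
          have h5 := le_of_mul_le_mul_left h4 hμp
          linarith
  have hpay : 7 * (T1.card : ℝ) / 8 ≤ ∑ e ∈ Pay, g e := by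
    have h1 : ∑ e ∈ Pay, g e + ∑ e ∈ (range M).filter
        (fun e => ¬ 40 * (D : ℝ) ^ e * ν (e + 2) ≤ g e), g e = T1.card := by
      rw [hPay, ← hsumM]
      exact sum_filter_add_sum_filter_not (range M)
        (fun e => 40 * (D : ℝ) ^ e * ν (e + 2) ≤ g e) g
    linarith
  -- parity
  have hpar : ∃ r, 3 * (T1.card : ℝ) / 8 ≤ ∑ e ∈ Pay.filter (fun e => e % 2 = r), g e := by
    by_contra hcon
    push Not at hcon
    have h0 := hcon 0
    have h1 := hcon 1
    have h2 := sum_filter_add_sum_filter_not Pay (fun e => e % 2 = 0) g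
    have h3 : Pay.filter (fun e => ¬ e % 2 = 0) = Pay.filter (fun e => e % 2 = 1) := by
      refine filter_congr fun e _ => ?_
      omega
    rw [h3] at h2
    have h4 : (0 : ℝ) ≤ T1.card := Nat.cast_nonneg _
    linarith
  obtain ⟨r, hr⟩ := hpar
  refine ⟨Tt, hT0, hsub, fun e S hS => by exact_mod_cast ha e S hS,
    fun e => by exact_mod_cast hb e,
    (Pay.filter (fun e => e % 2 = r)).filter (fun e => (Tt e \ Tt (e + 1)).Nonempty),
    ?_, ?_, ?_, ?_⟩
  · intro e he e' he' hlt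
    have h1 := (mem_filter.1 (mem_filter.1 he).1).2
    have h2 := (mem_filter.1 (mem_filter.1 he').1).2
    omega
  · intro e he
    exact (mem_filter.1 he).2
  · intro e he
    have h1 : 40 * (D : ℝ) ^ e * ν (e + 2) ≤ g e :=
      (mem_filter.1 (mem_filter.1 (mem_filter.1 he).1).1).2
    have h2 : 40 * (D : ℝ) ^ e * (((Tt (e + 2)).biUnion Nb).card : ℝ) ≤
        ((Tt e \ Tt (e + 1)).card : ℝ) := h1
    exact_mod_cast h2
  · have h1 : ∑ e ∈ Pay.filter (fun e => e % 2 = r), g e =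
        ∑ e ∈ (Pay.filter (fun e => e % 2 = r)).filter
          (fun e => (Tt e \ Tt (e + 1)).Nonempty), g e := by
      refine (sum_filter_of_ne fun e _ hne => ?_).symm
      by_contra h
      rw [not_nonempty_iff_eq_empty] at h
      apply hne
      simp only [hg]
      rw [h]
      simp
    rw [h1] at hr
    have h2 : 3 * (T1.card : ℝ) ≤ 8 * ∑ e ∈ (Pay.filter (fun e => e % 2 = r)).filter
          (fun e => (Tt e \ Tt (e + 1)).Nonempty), ((Tt e \ Tt (e + 1)).card : ℝ) := by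
      have : ∑ e ∈ (Pay.filter (fun e => e % 2 = r)).filter
          (fun e => (Tt e \ Tt (e + 1)).Nonempty), g e =
          ∑ e ∈ (Pay.filter (fun e => e % 2 = r)).filter
          (fun e => (Tt e \ Tt (e + 1)).Nonempty), ((Tt e \ Tt (e + 1)).card : ℝ) := rfl
      rw [← this]
      linarith
    exact_mod_cast h2

end Pool.Agent.H69.RL.LevelsNat
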